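import Pool.Agent.Helper58.DH.Goals2
import Pool.Agent.Helper24.DH.H_DEG

/-!
# H_DEG2: the signed numbers of the solutions on the two sides are zero
-/

set_option autoImplicit false

open Set
open scoped ContDiff

namespace Pool.Agent.Helper30.DH

open Pool.Agent.Helper58.DG Pool.Agent.Helper58.DH Pool.Agent.Helper24.DH

/-- The one sided statement for a pair `p, q` of indices which are never equal. -/
theorem side (hD : D_DEG) (hE : H_EQN) (hB : H_BND) (hN : N_NON) (p q : Fin 6)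
    (P Q M E : ℝ) (Z : Finset (Fin 6 → ℝ)) (hR : Reg30 P Q M E)
    (hne : ∀ (B : ℝ) (w : Fin 6 → ℝ), 1 ≤ B → SolC P Q M E B w → w p ≠ w q)
    (hZ : ∀ w, w ∈ Z ↔ SolC P Q M E 1 w ∧ w p < w q)
    (hj : ∀ w ∈ Z, jac (PC P Q M E 1) w ≠ 0) : ∑ w ∈ Z, sg (jac (PC P Q M E 1) w) = 0 := by
  obtain ⟨hP, hQ, hM, hE0, hs, -, -, -⟩ := hR
  have hPE : 0 < P + E := by linarith
  have hQE : 0 < Q + E := by linarith
  obtain ⟨B₀, hB₀, hno⟩ := hN P Q M E hP hQ hM hPE hQE hs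
  obtain ⟨δ, R, hδ, hb⟩ := hB P Q M E B₀ hP hQ hM hPE hQE hs hB₀
  have hB0 : 0 ≤ B₀ - 1 := sub_nonneg.2 hB₀
  have f0 : PC P Q M E (1 + 0 * (B₀ - 1)) = PC P Q M E 1 := by rw [zero_mul, add_zero]
  have f1 : PC P Q M E (1 + 1 * (B₀ - 1)) = PC P Q M E B₀ := by rw [one_mul, add_sub_cancel]
  have hI : ∀ s ∈ Icc (0 : ℝ) 1, 1 + s * (B₀ - 1) ∈ Icc (1 : ℝ) B₀ := by
    rintro s ⟨hs0, hs1⟩
    have h1 := mul_nonneg hs0 hB0
    have h2 := mul_le_mul_of_nonneg_right hs1 hB0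
    constructor <;> linarith
  have hcd := pc_cd P Q M E (B₀ - 1)
  have hcont : Continuous (fun z : ℝ × (Fin 6 → ℝ) ↦ PC P Q M E (1 + z.1 * (B₀ - 1)) z.2) :=
    hcd.continuous
  set K₀ : Set (ℝ × (Fin 6 → ℝ)) :=
    (Icc (0 : ℝ) 1 ×ˢ Icc (fun _ : Fin 6 ↦ δ) (fun _ ↦ R)) ∩
      ({z | PC P Q M E (1 + z.1 * (B₀ - 1)) z.2 = 0} ∩ {z | z.2 p ≤ z.2 q}) with hK₀
  have hK₀c : IsCompact K₀ := by
    refine (isCompact_Icc.prod isCompact_Icc).inter_right (IsClosed.inter ?_ ?_)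
    · exact isClosed_eq hcont continuous_const
    · exact isClosed_le ((continuous_apply p).comp continuous_snd)
        ((continuous_apply q).comp continuous_snd)
  have key := hD 6 (by norm_num) (fun s w ↦ PC P Q M E (1 + s * (B₀ - 1)) w)
    ({w | ∀ i, 0 < w i} ∩ {w | w p < w q})
    (Prod.snd '' K₀) Z ∅ hcd ?_ (hK₀c.image continuous_snd) ?_ ?_ ?_ ?_ ?_ ?_
  · simp only [f0, Finset.sum_empty] at key
    exact key
  · refine IsOpen.inter ?_ (isOpen_lt (continuous_apply p) (continuous_apply q))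
    simp only [ofPred_forall]
    exact isOpen_iInter_of_finite fun i ↦ isOpen_lt continuous_const (continuous_apply i)
  · rintro w ⟨⟨s, w'⟩, ⟨⟨hs1, hw⟩, h0, hle⟩, rfl⟩
    have hpos : ∀ i, 0 < w' i := fun i ↦ lt_of_lt_of_le hδ (hw.1 i)
    have hS : SolC P Q M E (1 + s * (B₀ - 1)) w' := ⟨hpos, (hE.1 P Q M E _ w' hpos).1 h0⟩
    exact ⟨hpos, lt_of_le_of_ne hle (hne _ w' (hI s hs1).1 hS)⟩
  · rintro s hs1 w ⟨hw, hlt⟩ h
    have hS : SolC P Q M E (1 + s * (B₀ - 1)) w := ⟨hw, (hE.1 P Q M E _ w hw).1 h⟩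
    have hle : w p ≤ w q := le_of_lt hlt
    exact ⟨(s, w), ⟨⟨hs1, fun i ↦ (hb _ (hI s hs1) w hS i).1,
      fun i ↦ (hb _ (hI s hs1) w hS i).2⟩, h, hle⟩, rfl⟩
  · intro w
    rw [hZ w]
    show _ ↔ ((∀ i, 0 < w i) ∧ w p < w q) ∧ PC P Q M E (1 + 0 * (B₀ - 1)) w = 0
    rw [f0]
    exact ⟨fun h ↦ ⟨⟨h.1.1, h.2⟩, (hE.1 P Q M E 1 w h.1.1).2 h.1.2⟩,
      fun h ↦ ⟨⟨h.1.1, (hE.1 P Q M E 1 w h.1.1).1 h.2⟩, h.1.2⟩⟩
  · intro w
    show _ ↔ ((∀ i, 0 < w i) ∧ w p < w q) ∧ PC P Q M E (1 + 1 * (B₀ - 1)) w = 0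
    rw [f1]
    refine ⟨fun h ↦ absurd h (Finset.notMem_empty _), fun h ↦ ?_⟩
    exact absurd ⟨h.1.1, (hE.1 P Q M E B₀ w h.1.1).1 h.2⟩ (hno w)
  · intro w hw
    show jac (PC P Q M E (1 + 0 * (B₀ - 1))) w ≠ 0
    rw [f0]
    exact hj w hw
  · intro w hw
    exact absurd hw (Finset.notMem_empty _)

theorem h_deg2 (hD : D_DEG) (hE : H_EQN) (hB : H_BND) (hN : N_NON) (hS : S_ST) : H_DEG2 := by
  intro P Q M E Z hR hZ hj
  rcases hZ with hZ | hZ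
  · exact side hD hE hB hN 4 5 P Q M E Z hR (fun B w hB1 hw ↦ hS P Q M E B w hR hB1 hw) hZ hj
  · exact side hD hE hB hN 5 4 P Q M E Z hR (fun B w hB1 hw ↦ (hS P Q M E B w hR hB1 hw).symm)
      hZ hj

end Pool.Agent.Helper30.DH
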