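import Pool.Agent.Helper58.DH.Goals

/-!
# Project DH (MP_06d934_gt): K_ALL, the Kähler-Einstein metrics
-/

set_option autoImplicit false

namespace Pool.Agent.Helper30.DH

open Pool.Agent.Helper58.DH

theorem s1_s1 (w : Fin 6 → ℝ) : s1 (s1 w) = w := by
  funext i
  fin_cases i <;> rfl

theorem s2_s2 (w : Fin 6 → ℝ) : s2 (s2 w) = w := by
  funext i
  fin_cases i <;> rfl

theorem cs_comm (x y z : ℝ) : cs x y z = cs y x z := by
  unfold cs
  rw [add_comm (x ^ 2), mul_right_comm]

theorem solC_s1 {P Q M E B : ℝ} {w : Fin 6 → ℝ} (h : SolC P Q M E B w) :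
    SolC P Q M E B (s1 w) := by
  obtain ⟨hp, e0, e1, e2, e3, e4, e5⟩ := h
  refine ⟨?_, ?_, ?_, ?_, ?_, ?_, ?_⟩
  · intro i
    fin_cases i
    · exact hp 1
    · exact hp 0
    · exact hp 2
    · exact hp 3
    · exact hp 4
    · exact hp 5
  · exact e1
  · exact e0
  · show w 2 = B - 2 * Q * cs (w 1) (w 0) (w 2) - M * cs (w 4) (w 4) (w 2)
    rw [cs_comm (w 1) (w 0)]
    exact e2
  · show w 3 = B - 2 * P * cs (w 1) (w 0) (w 3) - M * cs (w 5) (w 5) (w 3)
    rw [cs_comm (w 1) (w 0)]
    exact e3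
  · show w 4 = 1 - (P + E) * cs (w 2) (w 4) (w 4) -
      Q * (cs (w 5) (w 0) (w 4) + cs (w 5) (w 1) (w 4))
    rw [add_comm (cs (w 5) (w 0) (w 4))]
    exact e4
  · show w 5 = 1 - (Q + E) * cs (w 3) (w 5) (w 5) -
      P * (cs (w 4) (w 0) (w 5) + cs (w 4) (w 1) (w 5))
    rw [add_comm (cs (w 4) (w 0) (w 5))]
    exact e5

theorem solC_s2 {P Q M E B : ℝ} {w : Fin 6 → ℝ} (h : SolC P Q M E B w) :
    SolC Q P M E B (s2 w) := by
  obtain ⟨hp, e0, e1, e2, e3, e4, e5⟩ := h
  refine ⟨?_, ?_, ?_, ?_, ?_, ?_, ?_⟩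
  · intro i
    fin_cases i
    · exact hp 0
    · exact hp 1
    · exact hp 3
    · exact hp 2
    · exact hp 5
    · exact hp 4
  · show w 0 = 1 - (Q + E) * cs (w 1) (w 3) (w 0) - (P + E) * cs (w 1) (w 2) (w 0) -
      M * cs (w 5) (w 4) (w 0)
    rw [cs_comm (w 5) (w 4)]
    linarith [e0]
  · show w 1 = 1 - (Q + E) * cs (w 0) (w 3) (w 1) - (P + E) * cs (w 0) (w 2) (w 1) -
      M * cs (w 5) (w 4) (w 1)
    rw [cs_comm (w 5) (w 4)]
    linarith [e1]
  · exact e3
  · exact e2
  · exact e5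
  · exact e4

/-- The metric of the pair `h > k > 0`. -/
def vk (h k : ℝ) : Fin 6 → ℝ := ![h - k, h + k, 2 * h, 2 * k, h, k]

theorem vk_kc {P Q M E : ℝ} (_hs : 2 * P + 2 * Q + M + 2 * E = 1) :
    vk (P + 2 * Q + M + E) (Q + M + E) = kc P Q M E := by
  funext i
  fin_cases i
  · show P + 2 * Q + M + E - (Q + M + E) = P + Q
    ring
  · show P + 2 * Q + M + E + (Q + M + E) = P + 3 * Q + 2 * M + 2 * E
    ring
  · show 2 * (P + 2 * Q + M + E) = 2 * P + 4 * Q + 2 * M + 2 * E
    ring
  · show 2 * (Q + M + E) = 2 * Q + 2 * M + 2 * E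
    ring
  · rfl
  · rfl

theorem sol_vk {P Q M E h k : ℝ} (hk : 0 < k) (hkh : k < h)
    (hs : SolC P Q M E 1 (vk h k)) : h = 1 - (P + E) ∧ k = 1 - (Q + E) - 2 * P := by
  have hh : 0 < h := hk.trans hkh
  have hd : 0 < h - k := sub_pos.2 hkh
  have ha : 0 < h + k := by positivity
  obtain ⟨-, -, -, -, -, e4, e5⟩ := hs
  have e4' : h = 1 - (P + E) * cs (2 * h) h h - Q * (cs k (h + k) h + cs k (h - k) h) := e4
  have e5' : k = 1 - (Q + E) * cs (2 * k) k k - P * (cs h (h + k) k + cs h (h - k) k) := e5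
  have c1 : ∀ x : ℝ, 0 < x → cs (2 * x) x x = 1 := by
    intro x hx
    unfold cs
    field_simp
    ring
  have c2 : cs k (h + k) h = 1 := by
    unfold cs
    field_simp
    ring
  have c3 : cs k (h - k) h = -1 := by
    unfold cs
    field_simp
    ring
  have c4 : cs h (h + k) k = 1 := by
    unfold cs
    field_simp
    ring
  have c5 : cs h (h - k) k = 1 := by
    unfold cs
    field_simp
    ring
  rw [c1 h hh, c2, c3] at e4'
  rw [c1 k hk, c4, c5] at e5'
  constructor <;> linarith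

theorem vk_sol {P Q M E h k : ℝ} (hk : 0 < k) (hkh : k < h) (h1 : h = P + 2 * Q + M + E)
    (h2 : k = Q + M + E) (hs : 2 * P + 2 * Q + M + 2 * E = 1) :
    SolC P Q M E 1 (vk h k) := by
  have hh : 0 < h := hk.trans hkh
  have hd : 0 < h - k := sub_pos.2 hkh
  have ha : 0 < h + k := by positivity
  refine ⟨?_, ?_, ?_, ?_, ?_, ?_, ?_⟩
  · intro i
    fin_cases i
    · exact hd
    · exact ha
    · show 0 < 2 * h
      positivity
    · show 0 < 2 * k
      positivity
    · exact hh
    · exact hk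
  · show h - k = 1 - (P + E) * cs (h + k) (2 * h) (h - k) - (Q + E) * cs (h + k) (2 * k) (h - k) -
      M * cs h k (h - k)
    have c1 : cs (h + k) (2 * h) (h - k) = 1 := by
      unfold cs
      field_simp
      ring
    have c2 : cs (h + k) (2 * k) (h - k) = 1 := by
      unfold cs
      field_simp
      ring
    have c3 : cs h k (h - k) = 1 := by
      unfold cs
      field_simp
      ring
    rw [c1, c2, c3]
    linarith
  · show h + k = 1 - (P + E) * cs (h - k) (2 * h) (h + k) - (Q + E) * cs (h - k) (2 * k) (h + k) -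
      M * cs h k (h + k)
    have c1 : cs (h - k) (2 * h) (h + k) = 1 := by
      unfold cs
      field_simp
      ring
    have c2 : cs (h - k) (2 * k) (h + k) = -1 := by
      unfold cs
      field_simp
      ring
    have c3 : cs h k (h + k) = -1 := by
      unfold cs
      field_simp
      ring
    rw [c1, c2, c3]
    linarith
  · show 2 * h = 1 - 2 * Q * cs (h - k) (h + k) (2 * h) - M * cs h h (2 * h)
    have c1 : cs (h - k) (h + k) (2 * h) = -1 := by
      unfold cs
      field_simp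
      ring
    have c2 : cs h h (2 * h) = -1 := by
      unfold cs
      field_simp
      ring
    rw [c1, c2]
    linarith
  · show 2 * k = 1 - 2 * P * cs (h - k) (h + k) (2 * k) - M * cs k k (2 * k)
    have c1 : cs (h - k) (h + k) (2 * k) = 1 := by
      unfold cs
      field_simp
      ring
    have c2 : cs k k (2 * k) = -1 := by
      unfold cs
      field_simp
      ring
    rw [c1, c2]
    linarith
  · show h = 1 - (P + E) * cs (2 * h) h h - Q * (cs k (h + k) h + cs k (h - k) h)
    have c1 : cs (2 * h) h h = 1 := by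
      unfold cs
      field_simp
      ring
    have c2 : cs k (h + k) h = 1 := by
      unfold cs
      field_simp
      ring
    have c3 : cs k (h - k) h = -1 := by
      unfold cs
      field_simp
      ring
    rw [c1, c2, c3]
    linarith
  · show k = 1 - (Q + E) * cs (2 * k) k k - P * (cs h (h + k) k + cs h (h - k) k)
    have c1 : cs (2 * k) k k = 1 := by
      unfold cs
      field_simp
      ring
    have c4 : cs h (h + k) k = 1 := by
      unfold cs
      field_simp
      ring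
    have c5 : cs h (h - k) k = 1 := by
      unfold cs
      field_simp
      ring
    rw [c1, c4, c5]
    linarith

theorem sol_pos {P Q M E h k : ℝ} (hh : 0 < h) (hk : 0 < k) (hne : h ≠ k)
    (hsum : 2 * P + 2 * Q + M + 2 * E = 1)
    (hs : SolC P Q M E 1 ![|h - k|, h + k, 2 * h, 2 * k, h, k]) :
    (![|h - k|, h + k, 2 * h, 2 * k, h, k] : Fin 6 → ℝ) = kc P Q M E ∨
      (![|h - k|, h + k, 2 * h, 2 * k, h, k] : Fin 6 → ℝ) = s2 (kc Q P M E) := by
  rcases lt_or_gt_of_ne hne with hlt | hgt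
  · right
    have e : (![|h - k|, h + k, 2 * h, 2 * k, h, k] : Fin 6 → ℝ) = s2 (vk k h) := by
      rw [abs_sub_comm, abs_of_pos (sub_pos.2 hlt), add_comm h k]
      rfl
    rw [e] at hs ⊢
    have h1 := solC_s2 hs
    rw [s2_s2] at h1
    obtain ⟨h2, h3⟩ := sol_vk hh hlt h1
    congr 1
    rw [← vk_kc (by linarith)]
    congr 1 <;> linarith
  · left
    have e : (![|h - k|, h + k, 2 * h, 2 * k, h, k] : Fin 6 → ℝ) = vk h k := by
      rw [abs_of_pos (sub_pos.2 hgt)]
      rfl
    rw [e] at hs ⊢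
    obtain ⟨h2, h3⟩ := sol_vk hk hgt hs
    rw [← vk_kc hsum]
    congr 1 <;> linarith

theorem abs_pair (h k : ℝ) (hm : 0 < h * k) : |h - k| = |(|h| - |k|)| ∧ |h + k| = |h| + |k| := by
  rcases pos_and_pos_or_neg_and_neg_of_mul_pos hm with ⟨h1, h2⟩ | ⟨h1, h2⟩
  · rw [abs_of_pos h1, abs_of_pos h2, abs_of_pos (add_pos h1 h2)]
    exact ⟨rfl, rfl⟩
  · rw [abs_of_neg h1, abs_of_neg h2, abs_of_neg (add_neg h1 h2)]
    refine ⟨?_, by ring⟩
    rw [abs_sub_comm h k]
    congr 1
    ring

theorem abs_pair' (h k : ℝ) (hm : h * k < 0) : |h + k| = |(|h| - |k|)| ∧ |h - k| = |h| + |k| := by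
  have h1 : 0 < h * -k := by linarith [mul_neg h k]
  have h2 := abs_pair h (-k) h1
  rw [abs_neg, sub_neg_eq_add] at h2
  rw [← sub_eq_add_neg] at h2
  exact h2

theorem k_all : K_ALL := by
  intro P Q M E hP hQ hM hPE hQE hsum
  have hsum' : 2 * Q + 2 * P + M + 2 * E = 1 := by linarith
  have hKs : ∀ P Q : ℝ, 0 < P → 0 < Q → 0 < P + E → 0 < Q + E →
      2 * P + 2 * Q + M + 2 * E = 1 → SolC P Q M E 1 (kc P Q M E) := by
    intro P Q hP hQ hPE hQE hsum
    rw [← vk_kc hsum]
    exact vk_sol (by linarith) (by linarith) rfl rfl hsum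
  have hKC : ∀ P Q : ℝ, 0 < P → 0 < Q → 0 < P + E → 0 < Q + E →
      2 * P + 2 * Q + M + 2 * E = 1 →
      kc P Q M E = ![|(P + 2 * Q + M + E) - (Q + M + E)|, |(P + 2 * Q + M + E) + (Q + M + E)|,
        2 * |P + 2 * Q + M + E|, 2 * |Q + M + E|, |P + 2 * Q + M + E|, |Q + M + E|] := by
    intro P Q hP hQ hPE hQE hsum
    rw [abs_of_pos (by linarith : 0 < (P + 2 * Q + M + E) - (Q + M + E)),
      abs_of_pos (by linarith : 0 < (P + 2 * Q + M + E) + (Q + M + E)),
      abs_of_pos (by linarith : 0 < P + 2 * Q + M + E),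
      abs_of_pos (by linarith : 0 < Q + M + E)]
    exact (vk_kc hsum).symm
  have hKC1 : ∀ w : Fin 6 → ℝ, KC w → KC (s1 w) := by
    rintro w ⟨h, k, rfl⟩
    refine ⟨h, -k, ?_⟩
    rw [sub_neg_eq_add, ← sub_eq_add_neg, abs_neg]
    rfl
  have hKC2 : ∀ w : Fin 6 → ℝ, KC w → KC (s2 w) := by
    rintro w ⟨h, k, rfl⟩
    refine ⟨k, h, ?_⟩
    rw [abs_sub_comm k h, add_comm k h]
    rfl
  constructor
  · intro w
    constructor
    · rintro ⟨hs, h, k, rfl⟩
      have p0 : 0 < |h - k| := hs.1 0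
      have p1 : 0 < |h + k| := hs.1 1
      have p4 : 0 < |h| := hs.1 4
      have p5 : 0 < |k| := hs.1 5
      have hh : h ≠ 0 := abs_pos.1 p4
      have hk : k ≠ 0 := abs_pos.1 p5
      rcases lt_or_gt_of_ne (mul_ne_zero hh hk) with hm | hm
      · obtain ⟨e1, e2⟩ := abs_pair' h k hm
        have hne : |h| ≠ |k| := by
          intro he
          rw [he, sub_self, abs_zero] at e1
          exact p1.ne' e1
        have es : (![|h - k|, |h + k|, 2 * |h|, 2 * |k|, |h|, |k|] : Fin 6 → ℝ) =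
            s1 ![|(|h| - |k|)|, |h| + |k|, 2 * |h|, 2 * |k|, |h|, |k|] := by
          rw [e1, e2]
          rfl
        rw [es] at hs ⊢
        have h1 := solC_s1 hs
        rw [s1_s1] at h1
        rcases sol_pos p4 p5 hne hsum h1 with h2 | h2
        · right
          left
          rw [h2]
        · right
          right
          right
          rw [h2]
      · obtain ⟨e1, e2⟩ := abs_pair h k hm
        have hne : |h| ≠ |k| := by
          intro he
          rw [he, sub_self, abs_zero] at e1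
          exact p0.ne' e1
        rw [e1, e2] at hs ⊢
        rcases sol_pos p4 p5 hne hsum hs with h2 | h2
        · left
          exact h2
        · right
          right
          left
          exact h2
    · rintro (rfl | rfl | rfl | rfl)
      · exact ⟨hKs P Q hP hQ hPE hQE hsum, _, _, hKC P Q hP hQ hPE hQE hsum⟩
      · exact ⟨solC_s1 (hKs P Q hP hQ hPE hQE hsum),
          hKC1 _ ⟨_, _, hKC P Q hP hQ hPE hQE hsum⟩⟩
      · exact ⟨solC_s2 (hKs Q P hQ hP hQE hPE hsum'),
          hKC2 _ ⟨_, _, hKC Q P hQ hP hQE hPE hsum'⟩⟩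
      · exact ⟨solC_s1 (solC_s2 (hKs Q P hQ hP hQE hPE hsum')),
          hKC1 _ (hKC2 _ ⟨_, _, hKC Q P hQ hP hQE hPE hsum'⟩)⟩
  · have v1 : kc P Q M E 0 < kc P Q M E 1 := by
      show P + Q < P + 3 * Q + 2 * M + 2 * E
      linarith
    have v2 : kc P Q M E 5 < kc P Q M E 4 := by
      show Q + M + E < P + 2 * Q + M + E
      linarith
    have v3 : kc Q P M E 0 < kc Q P M E 1 := by
      show Q + P < Q + 3 * P + 2 * M + 2 * E
      linarith
    have v4 : kc Q P M E 5 < kc Q P M E 4 := by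
      show P + M + E < Q + 2 * P + M + E
      linarith
    have n1 : kc P Q M E ≠ s1 (kc P Q M E) := by
      intro h
      have h0 : kc P Q M E 0 = kc P Q M E 1 := congrFun h 0
      exact v1.ne h0
    have n2 : kc P Q M E ≠ s2 (kc Q P M E) := by
      intro h
      have h4 : kc P Q M E 4 = kc Q P M E 5 := congrFun h 4
      have h5 : kc P Q M E 5 = kc Q P M E 4 := congrFun h 5
      linarith
    have n3 : kc P Q M E ≠ s1 (s2 (kc Q P M E)) := by
      intro h
      have h4 : kc P Q M E 4 = kc Q P M E 5 := congrFun h 4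
      have h5 : kc P Q M E 5 = kc Q P M E 4 := congrFun h 5
      linarith
    have n4 : s1 (kc P Q M E) ≠ s2 (kc Q P M E) := by
      intro h
      have h4 : kc P Q M E 4 = kc Q P M E 5 := congrFun h 4
      have h5 : kc P Q M E 5 = kc Q P M E 4 := congrFun h 5
      linarith
    have n5 : s1 (kc P Q M E) ≠ s1 (s2 (kc Q P M E)) := by
      intro h
      have h4 : kc P Q M E 4 = kc Q P M E 5 := congrFun h 4
      have h5 : kc P Q M E 5 = kc Q P M E 4 := congrFun h 5
      linarith
    have n6 : s2 (kc Q P M E) ≠ s1 (s2 (kc Q P M E)) := by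
      intro h
      have h0 : kc Q P M E 0 = kc Q P M E 1 := congrFun h 0
      exact v3.ne h0
    rw [Finset.card_insert_of_notMem, Finset.card_insert_of_notMem,
      Finset.card_insert_of_notMem, Finset.card_singleton]
    · simpa using n6
    · simp only [Finset.mem_insert, Finset.mem_singleton, not_or]
      exact ⟨n4, n5⟩
    · simp only [Finset.mem_insert, Finset.mem_singleton, not_or]
      exact ⟨n1, n2, n3⟩

end Pool.Agent.Helper30.DH
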